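import Pool.Agent.helper81.WS.Spec
import Pool.Agent.helper85.PG.Basic

/-!
# Row ws:CEL (the one-cell theorem)
-/

set_option autoImplicit false

open Finset

namespace Pool.Agent.WS

open Module Pointwise

open Pool.Agent.helper85.PG (IsSys rr)

theorem CEL_cube (p : ℕ) [Fact p.Prime] (B : Finset (ZMod p)) : B.addEnergy B ≤ B.card ^ 3 := by
  have h : B.card ^ 3 = ((B ×ˢ B) ×ˢ B).card := by
    rw [Finset.card_product, Finset.card_product]
    ring
  rw [h]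
  unfold Finset.addEnergy
  refine Finset.card_le_card_of_injOn (fun x => ((x.1.1, x.1.2), x.2.1)) ?_ ?_
  · rintro ⟨⟨a, b⟩, ⟨c, e⟩⟩ hx
    simp only [Finset.coe_filter, Finset.mem_product, Set.mem_ofPred_eq] at hx
    simp only [Finset.coe_product, Set.mem_prod, Finset.mem_coe]
    exact ⟨hx.1.1, hx.1.2.1⟩
  · rintro ⟨⟨a, b⟩, ⟨c, e⟩⟩ hx ⟨⟨a', b'⟩, ⟨c', e'⟩⟩ hx' hxy
    simp only [Finset.coe_filter, Finset.mem_product, Set.mem_ofPred_eq] at hx hx'
    simp only [Prod.mk.injEq] at hxy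
    obtain ⟨⟨h1, h2⟩, h3⟩ := hxy
    subst h1; subst h2; subst h3
    have h4 : b + e = b + e' := by rw [← hx.2, ← hx'.2]
    rw [add_left_cancel h4]

theorem CEL_triv (p : ℕ) [Fact p.Prime] (A B : Finset (ZMod p)) (χ : MulChar (ZMod p) ℂ)
    (β : ZMod p → ℂ) (hβ : ∀ b, ‖β b‖ ≤ 1) :
    ∑ a ∈ A, ‖∑ b ∈ B, β b * χ (a + b)‖ ≤ (A.card : ℝ) * B.card := by
  have h1 : ∀ a ∈ A, ‖∑ b ∈ B, β b * χ (a + b)‖ ≤ (B.card : ℝ) := by
    intro a _
    refine (norm_sum_le _ _).trans ?_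
    calc ∑ b ∈ B, ‖β b * χ (a + b)‖ ≤ ∑ _b ∈ B, (1 : ℝ) := by
          refine Finset.sum_le_sum fun b _ => ?_
          rw [norm_mul]
          have h2 : ‖χ (a + b)‖ ≤ 1 := DirichletCharacter.norm_le_one χ (a + b)
          calc ‖β b‖ * ‖χ (a + b)‖ ≤ 1 * 1 :=
                mul_le_mul (hβ b) h2 (norm_nonneg _) zero_le_one
            _ = 1 := one_mul 1
      _ = (B.card : ℝ) := by rw [Finset.sum_const, nsmul_eq_mul, mul_one]
  refine (Finset.sum_le_sum h1).trans ?_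
  rw [Finset.sum_const, nsmul_eq_mul]

theorem CEL_pow2 (δ : ℝ) (hδ : 0 < δ) : ∃ p₀ : ℕ, ∀ p : ℕ, p₀ ≤ p → 2 ≤ (p : ℝ) ^ δ := by
  have h1 : Filter.Tendsto (fun n : ℕ => ((n : ℝ)) ^ δ) Filter.atTop Filter.atTop :=
    (tendsto_rpow_atTop hδ).comp tendsto_natCast_atTop_atTop
  exact Filter.eventually_atTop.1 (h1.eventually_ge_atTop 2)

/-- the two parts of `B` -/
theorem CEL_split (p : ℕ) [Fact p.Prime] (A B : Finset (ZMod p)) (χ : MulChar (ZMod p) ℂ)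
    (β : ZMod p → ℂ) (Q : ZMod p → Prop) [DecidablePred Q] :
    ∑ a ∈ A, ‖∑ b ∈ B, β b * χ (a + b)‖ ≤ ∑ a ∈ A, ‖∑ b ∈ B.filter Q, β b * χ (a + b)‖ +
      ∑ a ∈ A, ‖∑ b ∈ B.filter (fun b => ¬ Q b), β b * χ (a + b)‖ := by
  rw [← Finset.sum_add_distrib]
  refine Finset.sum_le_sum fun a _ => ?_
  rw [← Finset.sum_filter_add_sum_filter_not B Q]
  exact norm_add_le _ _

/-- one part: the theorem or the trivial bound -/
theorem CEL_part (p : ℕ) [Fact p.Prime] (hp1 : (1 : ℝ) ≤ p) (A B B' : Finset (ZMod p)) (D ε δ : ℝ)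
    (hε : 0 < ε)
    (χ : MulChar (ZMod p) ℂ) (β : ZMod p → ℂ) (hβ : ∀ b, ‖β b‖ ≤ 1) (hsub : B' ⊆ B)
    (hmain : (p : ℝ) ^ (1 / 2 + ε) * D ≤ (A.card : ℝ) * (B.card : ℝ) ^ 2) (hD0 : 0 ≤ D)
    (hth : (p : ℝ) ^ (1 / 2 + ε / 2) * D ≤ (A.card : ℝ) * (B'.card : ℝ) ^ 2 →
      ∑ a ∈ A, ‖∑ b ∈ B', β b * χ (a + b)‖ ≤ (p : ℝ) ^ (-δ) * (A.card * B'.card)) :
    ∑ a ∈ A, ‖∑ b ∈ B', β b * χ (a + b)‖ ≤ (p : ℝ) ^ (-(min δ (ε / 8))) * (A.card * B.card) := by
  have hp0 : (0 : ℝ) < p := by linarith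
  have hcard : (B'.card : ℝ) ≤ B.card := by exact_mod_cast Finset.card_le_card hsub
  have hA0 : (0 : ℝ) ≤ A.card := Nat.cast_nonneg _
  have hB0 : (0 : ℝ) ≤ B.card := Nat.cast_nonneg _
  have hB'0 : (0 : ℝ) ≤ B'.card := Nat.cast_nonneg _
  by_cases hb : (p : ℝ) ^ (-(ε / 8)) * B.card ≤ B'.card
  · have h1 : (p : ℝ) ^ (1 / 2 + ε / 2) * D ≤ (A.card : ℝ) * (B'.card : ℝ) ^ 2 := by
      have h2 : ((p : ℝ) ^ (-(ε / 8)) * B.card) ^ 2 ≤ (B'.card : ℝ) ^ 2 :=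
        pow_le_pow_left₀ (by positivity) hb 2
      have h3 : ((p : ℝ) ^ (-(ε / 8))) ^ 2 = (p : ℝ) ^ (-(ε / 4)) := by
        rw [← Real.rpow_natCast, ← Real.rpow_mul hp0.le]
        congr 1
        push_cast
        ring
      have h4 : (p : ℝ) ^ (-(ε / 4)) * (p : ℝ) ^ (1 / 2 + ε) = (p : ℝ) ^ (1 / 2 + 3 * ε / 4) := by
        rw [← Real.rpow_add hp0]
        congr 1
        ring
      have h5 : (p : ℝ) ^ (1 / 2 + ε / 2) ≤ (p : ℝ) ^ (1 / 2 + 3 * ε / 4) :=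
        Real.rpow_le_rpow_of_exponent_le hp1 (by linarith)
      calc (p : ℝ) ^ (1 / 2 + ε / 2) * D ≤ (p : ℝ) ^ (1 / 2 + 3 * ε / 4) * D :=
            mul_le_mul_of_nonneg_right h5 hD0
        _ = (p : ℝ) ^ (-(ε / 4)) * ((p : ℝ) ^ (1 / 2 + ε) * D) := by rw [← h4]; ring
        _ ≤ (p : ℝ) ^ (-(ε / 4)) * ((A.card : ℝ) * (B.card : ℝ) ^ 2) :=
            mul_le_mul_of_nonneg_left hmain (by positivity)
        _ = (A.card : ℝ) * ((p : ℝ) ^ (-(ε / 8)) * B.card) ^ 2 := by rw [← h3]; ring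
        _ ≤ (A.card : ℝ) * (B'.card : ℝ) ^ 2 := mul_le_mul_of_nonneg_left h2 hA0
    refine (hth h1).trans ?_
    refine mul_le_mul ?_ (mul_le_mul_of_nonneg_left hcard hA0) (by positivity) (by positivity)
    exact Real.rpow_le_rpow_of_exponent_le hp1 (neg_le_neg (min_le_left _ _))
  · rw [not_le] at hb
    refine (CEL_triv p A B' χ β hβ).trans ?_
    calc (A.card : ℝ) * B'.card ≤ A.card * ((p : ℝ) ^ (-(ε / 8)) * B.card) :=
          mul_le_mul_of_nonneg_left hb.le hA0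
      _ = (p : ℝ) ^ (-(ε / 8)) * (A.card * B.card) := by ring
      _ ≤ _ := by
          refine mul_le_mul_of_nonneg_right ?_ (by positivity)
          exact Real.rpow_le_rpow_of_exponent_le hp1 (neg_le_neg (min_le_right _ _))

theorem CEL (hTHA : Pool.Agent.helper85.PG.THA_stmt) (hCLS : CLS_stmt) (hDEN : DEN_stmt)
    (hSPA : SPA_stmt) (hKAR : KAR_stmt) : CEL_stmt := by
  classical
  intro d ε hε
  obtain ⟨δK, pK, hδK, hK⟩ := hKAR (ε / 16) (by positivity)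
  obtain ⟨δT, pT, hδT, hT⟩ := hTHA d (ε / 16) (by positivity)
  obtain ⟨τD, hτD, hD⟩ := hDEN d (ε / 2) (by positivity)
  obtain ⟨τS, hτS, hS⟩ := hSPA d (ε / 2) (by positivity)
  obtain ⟨τ, hτ0, hτ1, hτ2⟩ : ∃ τ : ℝ, 0 < τ ∧ τ ≤ τD ∧ τ ≤ τS :=
    ⟨min τD τS, lt_min hτD hτS, min_le_left _ _, min_le_right _ _⟩
  obtain ⟨δD, pD, hδD, hD⟩ := hD τ hτ0 hτ1
  obtain ⟨δS, pS, hδS, hS⟩ := hS τ hτ0 hτ2
  obtain ⟨δ₁, hδ₁, hδ₁D, hδ₁S⟩ : ∃ δ₁ : ℝ, 0 < δ₁ ∧ δ₁ ≤ min δD (ε / 8) ∧ δ₁ ≤ min δS (ε / 8) :=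
    ⟨min (min δD (ε / 8)) (min δS (ε / 8)), by positivity, min_le_left _ _, min_le_right _ _⟩
  obtain ⟨p2, h2⟩ := CEL_pow2 (δ₁ / 2) (by positivity)
  refine ⟨min (min δK δT) (δ₁ / 2), pK + pT + pD + pS + p2 + 2, by positivity, ?_⟩
  intro p _ hp P Q hP hQ s B hBs hNε hnε hmain χ hχ β hβ
  have hp1 : (1 : ℝ) ≤ p := by exact_mod_cast (by omega : 1 ≤ p)
  have hp0 : (0 : ℝ) < p := by linarith
  have hmono : ∀ x y : ℝ, x ≤ y → (p : ℝ) ^ x ≤ (p : ℝ) ^ y := fun x y h =>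
    Real.rpow_le_rpow_of_exponent_le hp1 h
  have hN0 : (0 : ℝ) ≤ (P 1).card := Nat.cast_nonneg _
  have hB0 : (0 : ℝ) ≤ B.card := Nat.cast_nonneg _
  have hQ0 : (0 : ℝ) ≤ (Q 1).card := Nat.cast_nonneg _
  by_cases hcK : (p : ℝ) ^ (1 / 2 + ε / 16) ≤ B.card
  · -- Karatsuba
    refine (hK p (by omega) (P 1) B ((hmono _ _ (by linarith)).trans hNε) hcK χ hχ β hβ).trans ?_
    refine mul_le_mul_of_nonneg_right (hmono _ _ ?_) (by positivity)
    exact neg_le_neg ((min_le_left _ _).trans (min_le_left _ _))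
  rw [not_le] at hcK
  by_cases hcA : (p : ℝ) ^ (1 + ε / 16) ≤ ((P 1).card : ℝ) ^ 2 * B.card
  · -- Theorem A
    have hcube : (B.addEnergy B : ℝ) ≤ (B.card : ℝ) ^ 3 := by exact_mod_cast CEL_cube p B
    refine (hT p (by omega) P hP 0 (P 1) B (fun a ha => by rwa [sub_zero]) ?_
      ((hmono _ _ (by linarith)).trans hnε) ?_ χ hχ β hβ).trans ?_
    · have h1 : (1 : ℝ) ≤ (p : ℝ) ^ δT := Real.one_le_rpow hp1 hδT.le
      nlinarith
    · calc (p : ℝ) ^ (1 + ε / 16) * (B.addEnergy B : ℝ)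
          ≤ (((P 1).card : ℝ) ^ 2 * B.card) * (B.card : ℝ) ^ 3 :=
            mul_le_mul hcA hcube (Nat.cast_nonneg _) (by positivity)
        _ = ((P 1).card : ℝ) ^ 2 * (B.card : ℝ) ^ 4 := by ring
    · refine mul_le_mul_of_nonneg_right (hmono _ _ ?_) (by positivity)
      exact neg_le_neg ((min_le_left _ _).trans (min_le_right _ _))
  rw [not_le] at hcA
  -- the cells
  obtain ⟨f, hf1, hf2⟩ := hCLS p d P hP ((p : ℝ) ^ (-(3 * τ))) B (by positivity)
  have hμ : ∀ R : ℝ, 0 ≤ R → 9 + 4 * R / (p : ℝ) ^ (-(3 * τ)) ≤ (9 + 4 * R) * (p : ℝ) ^ (3 * τ) := by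
    intro R hR
    rw [Real.rpow_neg hp0.le, div_inv_eq_mul]
    have h1 : (1 : ℝ) ≤ (p : ℝ) ^ (3 * τ) := Real.one_le_rpow hp1 (by positivity)
    nlinarith
  have hcells : ∀ (R : ℝ), 0 ≤ R → R ≤ 5 → ∀ y : ZMod p,
      ((((B.filter fun b => y - b ∈ P R).image f).card : ℕ) : ℝ) ≤ (29 * (p : ℝ) ^ (3 * τ)) ^ d := by
    intro R hR hR5 y
    refine (hf2 R y hR).trans (pow_le_pow_left₀ (by positivity) ((hμ R hR).trans ?_) d)
    exact mul_le_mul_of_nonneg_right (by linarith) (by positivity)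
  set Bd : Finset (ZMod p) := B.filter fun b => (p : ℝ) ^ τ ≤ (cf B f b).card with hBd
  set Bs : Finset (ZMod p) := B.filter fun b => ¬ (p : ℝ) ^ τ ≤ (cf B f b).card with hBs'
  have hBdsub : Bd ⊆ B := Finset.filter_subset _ _
  have hBssub : Bs ⊆ B := Finset.filter_subset _ _
  have hcBd : (Bd.card : ℝ) ≤ B.card := by exact_mod_cast Finset.card_le_card hBdsub
  have hcBs : (Bs.card : ℝ) ≤ B.card := by exact_mod_cast Finset.card_le_card hBssub
  have he8 : ε / 2 / 8 = ε / 16 := by ring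
  -- the dense part
  have hdense := CEL_part p hp1 (P 1) B Bd (Q 1).card ε δD hε χ β hβ hBdsub hmain hQ0 (by
    intro h3
    refine hD p (by omega) P Q hP hQ s Bd f (fun b hb => hBs b (hBdsub hb)) h3 ?_ ?_
      (fun b hb => hf1 b (hBdsub hb)) ?_ ?_ χ hχ β hβ
    · rw [he8]
      exact hcBd.trans hcK.le
    · rw [he8]
      exact (mul_le_mul_of_nonneg_left hcBd (by positivity)).trans hcA.le
    · intro y
      refine le_trans ?_ (hcells 5 (by norm_num) le_rfl y)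
      have h4 : (Bd.filter fun b => y - b ∈ P 5).image f ⊆ (B.filter fun b => y - b ∈ P 5).image f :=
        Finset.image_subset_image (Finset.filter_subset_filter _ hBdsub)
      exact_mod_cast Finset.card_le_card h4
    · intro b hb
      have hb2 := Finset.mem_filter.1 hb
      have h5 : cf Bd f b = cf B f b := by
        ext b'
        constructor
        · intro h
          have h6 := Finset.mem_filter.1 h
          exact Finset.mem_filter.2 ⟨hBdsub h6.1, h6.2⟩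
        · intro h
          have h6 := Finset.mem_filter.1 h
          have h8 : cf B f b' = cf B f b := by
            unfold cf
            rw [h6.2]
          have h9 : (p : ℝ) ^ τ ≤ (cf B f b').card := by
            rw [h8]
            exact hb2.2
          exact Finset.mem_filter.2 ⟨Finset.mem_filter.2 ⟨h6.1, h9⟩, h6.2⟩
      rw [h5]
      exact hb2.2)
  -- the sparse part
  have hsparse := CEL_part p hp1 (P 1) B Bs (Q 1).card ε δS hε χ β hβ hBssub hmain hQ0 (by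
    intro h3
    refine hS p (by omega) P Q hP hQ s Bs (fun b hb => hBs b (hBssub hb))
      ((hmono _ _ (by linarith)).trans hNε) h3 ?_ ?_ χ hχ β hβ
    · rw [he8]
      exact (mul_le_mul_of_nonneg_left hcBs (by positivity)).trans hcA.le
    · intro y
      have h4 : (Bs.filter fun b => y - b ∈ P 2).card ≤
          ⌊(p : ℝ) ^ τ⌋₊ * ((Bs.filter fun b => y - b ∈ P 2).image f).card := by
        refine Finset.card_le_mul_card_image _ _ ?_
        intro j hj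
        obtain ⟨b, hb, hbj⟩ := Finset.mem_image.1 hj
        have hb2 := Finset.mem_filter.1 (Finset.mem_filter.1 hb).1
        have h5 : (((Bs.filter fun b => y - b ∈ P 2).filter fun x => f x = j)) ⊆ cf B f b := by
          intro b' hb'
          have h6 := Finset.mem_filter.1 hb'
          unfold cf
          rw [Finset.mem_filter]
          exact ⟨hBssub (Finset.mem_filter.1 h6.1).1, h6.2.trans hbj.symm⟩
        refine (Finset.card_le_card h5).trans ?_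
        exact Nat.le_floor (not_le.1 hb2.2).le
      have h7 : ((((Bs.filter fun b => y - b ∈ P 2).image f).card : ℕ) : ℝ) ≤
          (29 * (p : ℝ) ^ (3 * τ)) ^ d := by
        refine le_trans ?_ (hcells 2 (by norm_num) (by norm_num) y)
        have h4 : (Bs.filter fun b => y - b ∈ P 2).image f ⊆
            (B.filter fun b => y - b ∈ P 2).image f :=
          Finset.image_subset_image (Finset.filter_subset_filter _ hBssub)
        exact_mod_cast Finset.card_le_card h4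
      calc ((Bs.filter fun b => y - b ∈ P 2).card : ℝ)
          ≤ ((⌊(p : ℝ) ^ τ⌋₊ * ((Bs.filter fun b => y - b ∈ P 2).image f).card : ℕ) : ℝ) := by
            exact_mod_cast h4
        _ = (⌊(p : ℝ) ^ τ⌋₊ : ℝ) * (((Bs.filter fun b => y - b ∈ P 2).image f).card : ℝ) := by
            push_cast
            ring
        _ ≤ (p : ℝ) ^ τ * (29 * (p : ℝ) ^ (3 * τ)) ^ d :=
            mul_le_mul (Nat.floor_le (by positivity)) h7 (Nat.cast_nonneg _) (by positivity))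
  -- the sum
  have hM0 : (0 : ℝ) ≤ ((P 1).card : ℝ) * B.card := by positivity
  have h6 : ∑ a ∈ P 1, ‖∑ b ∈ B, β b * χ (a + b)‖ ≤
      2 * (p : ℝ) ^ (-δ₁) * (((P 1).card : ℝ) * B.card) := by
    refine (CEL_split p (P 1) B χ β fun b => (p : ℝ) ^ τ ≤ (cf B f b).card).trans ?_
    have h7 : (p : ℝ) ^ (-(min δD (ε / 8))) ≤ (p : ℝ) ^ (-δ₁) := hmono _ _ (neg_le_neg hδ₁D)
    have h8 : (p : ℝ) ^ (-(min δS (ε / 8))) ≤ (p : ℝ) ^ (-δ₁) := hmono _ _ (neg_le_neg hδ₁S)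
    have h9 := hdense.trans (mul_le_mul_of_nonneg_right h7 hM0)
    have h10 := hsparse.trans (mul_le_mul_of_nonneg_right h8 hM0)
    linarith
  refine h6.trans ?_
  refine mul_le_mul_of_nonneg_right ?_ hM0
  have h11 : 2 * (p : ℝ) ^ (-δ₁) ≤ (p : ℝ) ^ (δ₁ / 2) * (p : ℝ) ^ (-δ₁) :=
    mul_le_mul_of_nonneg_right (h2 p (by omega)) (by positivity)
  refine h11.trans ?_
  rw [← Real.rpow_add hp0]
  refine hmono _ _ ?_
  have h12 : min (min δK δT) (δ₁ / 2) ≤ δ₁ / 2 := min_le_right _ _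
  linarith

end Pool.Agent.WS
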